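import Pool.Agent.Helper29.SR.Props
import Pool.Agent.Helper10.RC.Homs
import Pool.Agent.Helper69.RC.QB1
import Pool.Agent.Helper8.RC.QOfT

/-!
# MP_b55b7c_an: stable rank one, a maximal multiplier

Packet SR-XMax of helper29: the goal `XMaxP` from `SelP`, `CoreP`, `DisjP` and `RkP`.
-/

open scoped ENNReal NNReal InnerProductSpace ComplexOrder
open Filter Topology

attribute [-instance] CStarMatrix.instAlgebra CStarMatrix.instModule CStarMatrix.instSMul
  CStarMatrix.instMulAction CStarMatrix.instDistribMulAction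

noncomputable section
namespace RC
universe u

theorem xm_ramp_cont (s t : ℝ) : Continuous (ramp s t) := by
  unfold ramp
  fun_prop

theorem xm_ramp_nonneg (s t τ : ℝ) : 0 ≤ ramp s t τ := le_max_left _ _

theorem xm_ramp_le_one (s t τ : ℝ) : ramp s t τ ≤ 1 := max_le zero_le_one (min_le_left _ _)

theorem xm_ramp_eq_zero {s t τ : ℝ} (hst : s < t) (h : τ ≤ s) : ramp s t τ = 0 := by
  unfold ramp
  apply max_eq_left
  refine (min_le_right _ _).trans ?_
  exact div_nonpos_of_nonpos_of_nonneg (by linarith) (by linarith)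

theorem xm_ramp_eq_one {s t τ : ℝ} (hst : s < t) (h : t ≤ τ) : ramp s t τ = 1 := by
  unfold ramp
  have : 1 ≤ (τ - s) / (t - s) := by
    rw [le_div_iff₀ (by linarith)]
    linarith
  rw [min_eq_left this]
  exact max_eq_right zero_le_one

theorem xm_ramp_le_lin {s t : ℝ} (hst : s < t) (τ : ℝ) :
    ramp s t τ ≤ (1 / (t - s)) * max (τ - s) 0 := by
  unfold ramp
  have h0 : 0 < 1 / (t - s) := by
    apply one_div_pos.2
    linarith
  refine max_le (mul_nonneg h0.le (le_max_right _ _)) ?_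
  refine (min_le_right _ _).trans ?_
  rw [div_eq_mul_one_div, mul_comm]
  exact mul_le_mul_of_nonneg_left (le_max_left _ _) h0.le

section
variable {M : Type u} [CStarAlgebra M] [PartialOrder M] [StarOrderedRing M]

theorem xm_sq_nonneg (x : M) : 0 ≤ sq x := star_mul_self_nonneg x

theorem xm_T_nonneg (e V : M) (he : IsSelfAdjoint e) : 0 ≤ e * sq V * e := by
  have := star_left_conjugate_nonneg (xm_sq_nonneg V) e
  rwa [he.star_eq] at this

omit [PartialOrder M] [StarOrderedRing M] in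
theorem xm_one_sub_cfc (f : ℝ → ℝ) (hf : Continuous f) (a : M) (ha : IsSelfAdjoint a) :
    1 - cfc f a = cfc (fun t => 1 - f t) a := by
  rw [cfc_sub (fun _ : ℝ => (1 : ℝ)) f a (by fun_prop) hf.continuousOn, cfc_const_one ℝ a]

theorem xm_V_small (e V : M) (he : IsSelfAdjoint e) (η : ℝ) (hη : 0 < η) :
    ‖V * (e * (1 - cfc (ramp (η / 2) η) (e * sq V * e)) * e) * star V‖ ≤ η := by
  set T := e * sq V * e with hT
  have hT0 : 0 ≤ T := xm_T_nonneg e V he
  have hTs : IsSelfAdjoint T := hT0.isSelfAdjoint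
  set g : ℝ → ℝ := fun t => √(1 - ramp (η / 2) η t) with hg
  have hrc := xm_ramp_cont (η / 2) η
  have hgc : Continuous g := by
    rw [hg]
    fun_prop
  set s := cfc g T with hs
  have hss : IsSelfAdjoint s := cfc_predicate g T
  have h1 : 1 - cfc (ramp (η / 2) η) T = s * s := by
    rw [xm_one_sub_cfc _ hrc T hTs, hs, ← cfc_mul g g T hgc.continuousOn hgc.continuousOn]
    refine cfc_congr fun t _ => ?_
    show _ = √_ * √_
    rw [Real.mul_self_sqrt]
    have := xm_ramp_le_one (η / 2) η t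
    linarith
  have h2 : V * (e * (s * s) * e) * star V = (V * e * s) * star (V * e * s) := by
    rw [star_mul, star_mul, hss.star_eq, he.star_eq]
    noncomm_ring
  have h3 : star (V * e * s) * (V * e * s) = s * T * s := by
    rw [star_mul, star_mul, hss.star_eq, he.star_eq, hT]
    show _ = s * (e * (star V * V) * e) * s
    noncomm_ring
  have h4 : s * T * s = cfc (fun t => g t * t * g t) T := by
    have hid : cfc (fun t : ℝ => t) T = T := cfc_id' ℝ T
    rw [cfc_mul (fun t => g t * t) g T (by fun_prop) hgc.continuousOn,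
      cfc_mul g (fun t => t) T hgc.continuousOn (by fun_prop), hid]
  rw [h1, h2, CStarRing.norm_self_mul_star, ← CStarRing.norm_star_mul_self, h3, h4]
  refine norm_cfc_le hη.le fun t ht => ?_
  have ht0 := spectrum_nonneg_of_nonneg hT0 ht
  have hr0 := xm_ramp_nonneg (η / 2) η t
  have hr1 := xm_ramp_le_one (η / 2) η t
  have h5 : g t * t * g t = t * (1 - ramp (η / 2) η t) := by
    have : g t * g t = 1 - ramp (η / 2) η t := Real.mul_self_sqrt (by linarith)
    rw [← this]; ring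
  rw [h5, Real.norm_eq_abs, abs_of_nonneg (mul_nonneg ht0 (by linarith))]
  rcases le_total η t with h | h
  · rw [xm_ramp_eq_one (by linarith) h]
    simpa using hη.le
  · nlinarith

/-- The element `y` and its bounds. -/
theorem xm_y_bounds (a V : M) (ha : 0 ≤ a) (δ η : ℝ) (hδ : 0 < δ) :
    0 ≤ cfc (ramp (δ / 2) δ) a * (1 - cfc (ramp (η / 2) η) (cfc (ramp (δ / 2) δ) a * sq V *
        cfc (ramp (δ / 2) δ) a)) * cfc (ramp (δ / 2) δ) a ∧
    cfc (ramp (δ / 2) δ) a * (1 - cfc (ramp (η / 2) η) (cfc (ramp (δ / 2) δ) a * sq V *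
        cfc (ramp (δ / 2) δ) a)) * cfc (ramp (δ / 2) δ) a ≤ 1 ∧
    cfc (ramp (δ / 2) δ) a * (1 - cfc (ramp (η / 2) η) (cfc (ramp (δ / 2) δ) a * sq V *
        cfc (ramp (δ / 2) δ) a)) * cfc (ramp (δ / 2) δ) a ≤ (2 / δ) • cut a (δ / 2) := by
  set e := cfc (ramp (δ / 2) δ) a with he
  have hes : IsSelfAdjoint e := cfc_predicate _ a
  set T := e * sq V * e with hT
  have hT0 : 0 ≤ T := xm_T_nonneg e V hes
  have hTs : IsSelfAdjoint T := hT0.isSelfAdjoint
  have hrc := xm_ramp_cont (η / 2) η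
  have hrd := xm_ramp_cont (δ / 2) δ
  have hx0 : 0 ≤ 1 - cfc (ramp (η / 2) η) T := by
    rw [xm_one_sub_cfc _ hrc T hTs]
    refine cfc_nonneg fun t _ => ?_
    have := xm_ramp_le_one (η / 2) η t
    linarith
  have hx1 : 1 - cfc (ramp (η / 2) η) T ≤ 1 := by
    have : 0 ≤ cfc (ramp (η / 2) η) T := cfc_nonneg fun t _ => xm_ramp_nonneg _ _ t
    exact sub_le_self _ this
  have hy0 : 0 ≤ e * (1 - cfc (ramp (η / 2) η) T) * e := by
    have := star_left_conjugate_nonneg hx0 e
    rwa [hes.star_eq] at this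
  have hye : e * (1 - cfc (ramp (η / 2) η) T) * e ≤ e * e := by
    have := star_left_conjugate_le_conjugate hx1 e
    rwa [hes.star_eq, mul_one] at this
  have hee : e * e = cfc (fun t => ramp (δ / 2) δ t * ramp (δ / 2) δ t) a := by
    rw [cfc_mul _ _ a hrd.continuousOn hrd.continuousOn]
  have has : IsSelfAdjoint a := ha.isSelfAdjoint
  have hrr : ∀ t, ramp (δ / 2) δ t * ramp (δ / 2) δ t ≤ ramp (δ / 2) δ t := fun t =>
    mul_le_of_le_one_left (xm_ramp_nonneg _ _ t) (xm_ramp_le_one _ _ t)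
  refine ⟨hy0, hye.trans ?_, hye.trans ?_⟩
  · rw [hee]
    have h1 : (1 : M) = cfc (fun _ : ℝ => (1 : ℝ)) a := by
      rw [cfc_const_one ℝ a]
    rw [h1]
    exact cfc_mono fun t _ => (hrr t).trans (xm_ramp_le_one _ _ t)
  · rw [hee]
    unfold cut
    rw [← cfc_const_mul (2 / δ) (fun t : ℝ => max (t - δ / 2) 0) a]
    refine cfc_mono fun t _ => ?_
    refine (hrr t).trans ?_
    have := xm_ramp_le_lin (s := δ / 2) (t := δ) (by linarith) t
    have h2 : 1 / (δ - δ / 2) = 2 / δ := by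
      field_simp
      ring
    rwa [h2] at this

theorem xm_cut_mono (a : M) {s t : ℝ} (h : s ≤ t) : cut a t ≤ cut a s := by
  unfold cut
  refine cfc_mono fun τ _ => ?_
  exact max_le_max (by linarith) le_rfl

theorem xm_F_le (c : M) (hc : 0 ≤ c) (ε : ℝ) (hε : 0 ≤ ε) : cut c ε * cut c ε ≤ ‖c‖ • c := by
  rcases subsingleton_or_nontrivial M with hsub | hnt
  · exact le_of_eq (Subsingleton.elim _ _)
  have hcs : IsSelfAdjoint c := hc.isSelfAdjoint
  unfold cut
  rw [← cfc_mul (fun t : ℝ => max (t - ε) 0) (fun t : ℝ => max (t - ε) 0) c (by fun_prop)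
    (by fun_prop)]
  conv_rhs => rw [← cfc_id' ℝ c]
  have h0 : ‖cfc (fun x : ℝ => x) c‖ • cfc (fun x : ℝ => x) c = ‖c‖ • cfc (fun x : ℝ => x) c := by
    rw [cfc_id' ℝ c]
  rw [h0, ← cfc_const_mul ‖c‖ (fun t : ℝ => t) c]
  refine cfc_mono fun t ht => ?_
  have ht0 := spectrum_nonneg_of_nonneg hc ht
  have htn : t ≤ ‖c‖ := by
    have := spectrum.norm_le_norm_of_mem ht
    rwa [Real.norm_eq_abs, abs_of_nonneg ht0] at this
  have hm0 : 0 ≤ max (t - ε) 0 := le_max_right _ _
  have hm1 : max (t - ε) 0 ≤ t := max_le (by linarith) ht0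
  nlinarith

theorem xm_cutFF (c : M) (hc : 0 ≤ c) (ε θ : ℝ) :
    cfc (fun t : ℝ => max (max (t - ε) 0 * max (t - ε) 0 - θ) 0) c =
      cut (cut c ε * cut c ε) θ := by
  have hcs : IsSelfAdjoint c := hc.isSelfAdjoint
  have h1 : cut c ε * cut c ε = cfc (fun t : ℝ => max (t - ε) 0 * max (t - ε) 0) c := by
    unfold cut
    rw [cfc_mul (fun t : ℝ => max (t - ε) 0) (fun t : ℝ => max (t - ε) 0) c (by fun_prop)
      (by fun_prop)]
  rw [h1]
  unfold cut
  rw [← cfc_comp' (fun x : ℝ => max (x - θ) 0) (fun t : ℝ => max (t - ε) 0 * max (t - ε) 0) c]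

theorem xm_tr_mono (φ : TState M) {x y : M} (h : x ≤ y) : (φ.φ x).re ≤ (φ.φ y).re := by
  have := φ.nonneg (y - x) (sub_nonneg.2 h)
  rw [map_sub] at this
  have h1 := (Complex.le_def.1 this).1
  simp only [Complex.zero_re, Complex.sub_re] at h1
  linarith

theorem xm_tr_le (φ : TState M) (σ : QTrace M) (h : IsQ φ σ) (y : M) (hy0 : 0 ≤ y)
    (hy1 : y ≤ 1) (θ : ℝ) (hθ : 0 ≤ θ) :
    (φ.φ y).re ≤ σ.dim (one1 (cut y θ)) + θ := by
  have hc0 : 0 ≤ cut y θ := cut_nonneg y θ
  have hc1 : cut y θ ≤ 1 := (cut_le hy0 hθ).trans hy1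
  have h1 : (φ.φ y).re ≤ (φ.φ (cut y θ)).re + θ := by
    have := xm_tr_mono φ (le_cut_add hy0.isSelfAdjoint θ)
    have h2 : φ.φ (cut y θ + θ • (1 : M)) = φ.φ (cut y θ) + (θ : ℂ) := by
      rw [map_add]
      have : (θ • (1 : M)) = ((θ : ℂ) • (1 : M)) := by
        rw [Complex.coe_smul]
      rw [this, map_smul, φ.one, smul_eq_mul, mul_one]
    rw [h2, Complex.add_re, Complex.ofReal_re] at this
    exact this
  have h2 : (φ.φ (cut y θ)).re = σ.τ Unit (one1 (cut y θ)) := by
    rw [h Unit (one1 (cut y θ))]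
    simp [one1]
  have h3 : one1 (cut y θ) ≤ 1 := by
    have h4 : one1H (cut y θ) ≤ one1H (1 : M) := by
      have := map_nonneg one1H (sub_nonneg.2 hc1)
      rw [map_sub] at this
      exact sub_nonneg.1 this
    rwa [map_one] at h4
  have h4 := (qBasicP M σ Unit (one1 (cut y θ)) (one1_nonneg hc0)).2.2.2 h3
  linarith

end

/-- The goal `XMaxP`. -/
theorem xMaxP (hSel : SelP.{u}) (hCore : CoreP.{u}) (hDisj : DisjP.{u}) (hRk : RkP.{u}) :
    XMaxP.{u} := by
  intro M _ _ _ hM a b ha hb hlt δ ε hδ hε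
  obtain ⟨m, hm⟩ := exists_nat_gt (4 / ε)
  have hm0 : (0 : ℝ) < m := lt_trans (by positivity) hm
  have hm1 : 1 < m * (ε / 4) := by
    rw [div_lt_iff₀ hε] at hm
    linarith
  have hmN : 0 < m := by exact_mod_cast hm0
  have : Nonempty (Fin m) := ⟨⟨0, hmN⟩⟩
  set t : ℕ → ℝ := fun i => δ / 2 * ((m - i + 1) / (m + 1)) with ht
  have htpos : ∀ i : ℕ, i ≤ m → 0 < t i := by
    intro i hi
    have : (i : ℝ) ≤ m := by exact_mod_cast hi
    have h1 : (0 : ℝ) < m - i + 1 := by linarith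
    simp only [ht]
    positivity
  have htlt : ∀ i : ℕ, t (i + 1) < t i := by
    intro i
    simp only [ht]
    apply mul_lt_mul_of_pos_left _ (by positivity)
    apply div_lt_div_of_pos_right _ (by positivity)
    push_cast
    linarith
  have htle : ∀ i : ℕ, t i ≤ δ / 2 := by
    intro i
    simp only [ht]
    have h1 : ((m : ℝ) - i + 1) / (m + 1) ≤ 1 := by
      rw [div_le_one (by positivity)]
      have : (0 : ℝ) ≤ i := Nat.cast_nonneg i
      linarith
    have : δ / 2 * ((m - i + 1) / (m + 1)) ≤ δ / 2 * 1 :=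
      mul_le_mul_of_nonneg_left h1 (by positivity)
    linarith
  have hS : ∀ i : Fin m, ∃ (n : ℕ) (X : Fin n → M) (r C : ℝ), 0 < r ∧
      (∀ k, sq (b * X k * a) ≤ C • cut a (t (i + 1))) ∧
      ∀ φ : TState M, ∃ k, (φ.φ (cfc (ramp (t (i + 1)) (t i)) a)).re - ε / 4 <
        (φ.φ (cfc (ramp r (2 * r)) (sq (b * X k * a)))).re := fun i =>
    hSel M a b ha hb hlt (t (i + 1)) (t i) (ε / 4) (htpos _ i.2) (htlt i) (by positivity)
  choose n X r C hr hC hsel using hS
  obtain ⟨i₀, hi₀⟩ := Finite.exists_min r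
  set ε₀ := r i₀ / 2 with hε₀
  have hε₀p : 0 < ε₀ := by
    have := hr i₀
    positivity
  have hε₀r : ∀ i, 2 * ε₀ ≤ r i := by
    intro i
    have := hi₀ i
    rw [hε₀]
    linarith
  obtain ⟨Y, d, hd, hBel⟩ := hCore M hM a b ε₀ hε₀p (Fintype.card (Σ i, Fin (n i)))
    (fun j => X ((Fintype.equivFin (Σ i, Fin (n i))).symm j).1
      ((Fintype.equivFin (Σ i, Fin (n i))).symm j).2)
  have hBel' : ∀ i k, Bel ε₀ d (b * X i k * a) (b * Y * a) := by
    intro i k
    have := hBel (Fintype.equivFin (Σ i, Fin (n i)) ⟨i, k⟩)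
    rw [Equiv.symm_apply_apply] at this
    exact this
  set θ := min (ε₀ ^ 2 / 2) (ε / 4) with hθ
  have hθp : 0 < θ := lt_min (by positivity) (by positivity)
  have hθ1 : θ ≤ ε₀ ^ 2 / 2 := min_le_left _ _
  have hθ2 : θ ≤ ε / 4 := min_le_right _ _
  refine ⟨Y, d * θ / 6, by positivity, fun φ => ?_⟩
  set V := b * Y * a with hV
  set η := d * θ / 6 with hη
  have hηp : 0 < η := by positivity
  obtain ⟨hy0, hy1, hy2⟩ := xm_y_bounds a V ha δ η hδ
  have hVy := xm_V_small (cfc (ramp (δ / 2) δ) a) V (cfc_predicate _ a) η hηp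
  set y := cfc (ramp (δ / 2) δ) a * (1 - cfc (ramp (η / 2) η) (cfc (ramp (δ / 2) δ) a * sq V *
        cfc (ramp (δ / 2) δ) a)) * cfc (ramp (δ / 2) δ) a with hy
  obtain ⟨σ, hσ⟩ := qOfTP M φ
  have hfin := xm_tr_le φ σ hσ y hy0 hy1 θ hθp.le
  have hstep : ∀ i : Fin m, σ.dim (one1 (cut y θ)) ≤
      σ.dim (one1 (cut a (t (i + 1)))) - σ.dim (one1 (cut a (t i))) + ε / 4 := by
    intro i
    obtain ⟨k, hk⟩ := hsel i φ
    set c := sq (b * X i k * a) with hc
    have hc0 : 0 ≤ c := xm_sq_nonneg _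
    have h1 : y + cut c ε₀ * cut c ε₀ ≤ (2 / δ + ‖c‖ * C i) • cut a (t (i + 1)) := by
      rw [add_smul]
      refine add_le_add ?_ ?_
      · refine hy2.trans ?_
        exact smul_le_smul_of_nonneg_left (xm_cut_mono a (htle _)) (by positivity)
      · refine (xm_F_le c hc0 ε₀ hε₀p.le).trans ?_
        rw [mul_smul]
        exact smul_le_smul_of_nonneg_left (hC i k) (norm_nonneg _)
    have h2 := hDisj M V y (cut c ε₀) (cut a (t (i + 1))) d θ (2 / δ + ‖c‖ * C i) hy0
      (cut_sa _ _) (cut_nonneg _ _) hd hθp hVy (hBel' i k) h1 σ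
    have h3 := (hRk M φ σ hσ c hc0 (ramp (r i) (2 * r i))
      (fun τ => max (max (τ - ε₀) 0 * max (τ - ε₀) 0 - θ) 0) (xm_ramp_cont _ _)
      (by fun_prop) (fun τ => xm_ramp_nonneg _ _ τ) (fun τ => le_max_right _ _)).1
      (fun τ => xm_ramp_le_one _ _ τ) (by
        intro τ hτ
        by_contra hne
        have hri := hr i
        have hτr : r i < τ := by
          by_contra hcon
          exact hne (xm_ramp_eq_zero (by linarith) (not_lt.1 hcon))
        have h5 := hε₀r i
        have h6 : ε₀ ≤ τ - ε₀ := by linarith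
        have h7 : max (τ - ε₀) 0 = τ - ε₀ := max_eq_left (by linarith)
        simp only [h7] at hτ
        have h8 : (τ - ε₀) * (τ - ε₀) - θ ≤ 0 := by
          rw [← hτ]
          exact le_max_left _ _
        nlinarith)
    rw [xm_cutFF c hc0] at h3
    have h4 := (hRk M φ σ hσ a ha (ramp (t (i + 1)) (t i))
      (fun τ => max (τ - t i) 0) (xm_ramp_cont _ _)
      (by fun_prop) (fun τ => xm_ramp_nonneg _ _ τ) (fun τ => le_max_right _ _)).2
      (by
        intro τ hτ
        have hτt : t i < τ := by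
          by_contra hcon
          exact hτ (max_eq_right (by linarith [not_lt.1 hcon]))
        rw [xm_ramp_eq_one (htlt i) hτt.le])
    have h5 : cfc (fun τ => max (τ - t i) 0) a = cut a (t i) := rfl
    rw [h5] at h4
    linarith
  have hsum : ∀ j : ℕ, j ≤ m → (j : ℝ) * σ.dim (one1 (cut y θ)) ≤
      σ.dim (one1 (cut a (t j))) - σ.dim (one1 (cut a (t 0))) + j * (ε / 4) := by
    intro j
    induction j with
    | zero => intro _; simp
    | succ j ih =>
      intro hj
      have h1 := ih (by omega)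
      have h2 := hstep ⟨j, by omega⟩
      simp only at h2
      push_cast
      linarith
  have hm' := hsum m le_rfl
  have hb0 := (qBasicP M σ Unit (one1 (cut a (t 0))) (one1_nonneg (cut_nonneg _ _))).2.1
  have hb1 := (qBasicP M σ Unit (one1 (cut a (t m))) (one1_nonneg (cut_nonneg _ _))).2.2.1
  simp only [Fintype.card_unit, Nat.cast_one] at hb1
  have h9 : (m : ℝ) * σ.dim (one1 (cut y θ)) ≤ m * (ε / 2) := by
    nlinarith
  have h10 : σ.dim (one1 (cut y θ)) ≤ ε / 2 := le_of_mul_le_mul_left h9 hm0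
  linarith

end RC
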