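import Pool.Agent.Helper47.SR.Goals

/-!
# MP_0130f7_co: packet SR-CONV
-/

namespace Pool.Agent.Helper47.SR

open Finset

namespace ConvAux

lemma mv_mul {n : ℕ} (g h : Equiv.Perm (Fin n)) (A : Finset (Fin n)) :
    mv (g * h) A = mv g (mv h A) := by
  unfold mv
  rw [Finset.map_map]
  rfl

lemma mv_one {n : ℕ} (A : Finset (Fin n)) : mv (1 : Equiv.Perm (Fin n)) A = A := by
  unfold mv
  have : (1 : Equiv.Perm (Fin n)).toEmbedding = Function.Embedding.refl _ := rfl
  rw [this, Finset.map_refl]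

lemma mv_card {n : ℕ} (g : Equiv.Perm (Fin n)) (A : Finset (Fin n)) : (mv g A).card = A.card :=
  Finset.card_map _

lemma mem_orb {n : ℕ} (G : Grp n) (A B : Finset (Fin n)) :
    B ∈ orb G A ↔ ∃ γ ∈ G, mv γ A = B := by
  classical
  simp [orb]

lemma mem_orb_self {n : ℕ} (G : Grp n) (A : Finset (Fin n)) : A ∈ orb G A :=
  (mem_orb G A A).2 ⟨1, G.one_mem, mv_one A⟩

lemma orb_eq {n : ℕ} (G : Grp n) {A B : Finset (Fin n)} (h : B ∈ orb G A) :
    orb G B = orb G A := by
  obtain ⟨γ, hγ, rfl⟩ := (mem_orb G A B).1 h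
  ext C
  rw [mem_orb, mem_orb]
  constructor
  · rintro ⟨δ, hδ, rfl⟩
    exact ⟨δ * γ, G.mul_mem hδ hγ, mv_mul δ γ A⟩
  · rintro ⟨δ, hδ, rfl⟩
    refine ⟨δ * γ⁻¹, G.mul_mem hδ (G.inv_mem hγ), ?_⟩
    rw [← mv_mul, mul_assoc, inv_mul_cancel, mul_one]

lemma QL_card {n : ℕ} {G : Grp n} {m : ℕ} {O : Finset (Finset (Fin n))} (hO : O ∈ QL G m)
    {A : Finset (Fin n)} (hA : A ∈ O) : A.card = m ∧ orb G A = O := by
  obtain ⟨B, hB, rfl⟩ := Finset.mem_image.1 hO
  refine ⟨?_, orb_eq G hA⟩
  obtain ⟨γ, -, rfl⟩ := (mem_orb G B A).1 hA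
  rw [mv_card]
  exact (Finset.mem_powersetCard.1 hB).2

lemma QL_nonempty {n : ℕ} {G : Grp n} {m : ℕ} {O : Finset (Finset (Fin n))} (hO : O ∈ QL G m) :
    ∃ A, A ∈ O := by
  obtain ⟨B, hB, rfl⟩ := Finset.mem_image.1 hO
  exact ⟨B, mem_orb_self G B⟩

lemma exists_reps {n : ℕ} (G : Grp n) (O : ℕ → Finset (Finset (Fin n))) (i : ℕ) (N : ℕ)
    (h1 : ∀ j ≤ N, O j ∈ QL G (i + j)) (h2 : ∀ j < N, QR (O j) (O (j + 1))) :
    ∃ a : ℕ → Finset (Fin n), (∀ j ≤ N, a j ∈ O j) ∧ ∀ j < N, a j ⊆ a (j + 1) := by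
  induction N with
  | zero =>
    obtain ⟨A, hA⟩ := QL_nonempty (h1 0 le_rfl)
    refine ⟨fun _ => A, ?_, ?_⟩
    · intro j hj
      obtain rfl : j = 0 := by omega
      exact hA
    · intro j hj; omega
  | succ N ih =>
    obtain ⟨a, ha1, ha2⟩ := ih (fun j hj => h1 j (by omega)) (fun j hj => h2 j (by omega))
    obtain ⟨A0, hA0, B0, hB0, hAB⟩ := h2 N (by omega)
    have hA0' := (QL_card (h1 N (by omega)) hA0).2
    have haN : a N ∈ orb G A0 := by rw [hA0']; exact ha1 N le_rfl
    obtain ⟨γ, hγ, hγA⟩ := (mem_orb G A0 (a N)).1 haN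
    have hB0' := (QL_card (h1 (N + 1) le_rfl) hB0).2
    refine ⟨Function.update a (N + 1) (mv γ B0), ?_, ?_⟩
    · intro j hj
      by_cases hjN : j = N + 1
      · subst hjN
        rw [Function.update_self, ← hB0']
        exact (mem_orb G B0 _).2 ⟨γ, hγ, rfl⟩
      · rw [Function.update_of_ne hjN]
        exact ha1 j (by omega)
    · intro j hj
      by_cases hjN : j = N
      · subst hjN
        rw [Function.update_self, Function.update_of_ne (by omega), ← hγA]
        exact Finset.map_subset_map.2 hAB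
      · rw [Function.update_of_ne (by omega), Function.update_of_ne (by omega)]
        exact ha2 j (by omega)

end ConvAux

open ConvAux in
theorem goal_CONV : Goal_CONV := by
  classical
  intro n G hP
  obtain ⟨C, hC, hU⟩ := hP
  -- data for every list
  have key : ∀ l ∈ C, ∃ i : ℕ, ∃ a : ℕ → Finset (Fin n), 2 * i ≤ n ∧ l.length = n - 2 * i + 1 ∧
      (∀ (j : ℕ) (x : Finset (Finset (Fin n))), l[j]? = some x → x ∈ QL G (i + j) ∧ a j ∈ x) ∧
      (∀ j, j + 1 < l.length → a j ⊆ a (j + 1)) := by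
    intro l hl
    obtain ⟨i, -, hi, hlen, hx, hxy⟩ := hC l hl
    have hget : ∀ j, j ≤ n - 2 * i → l[j]? = some (l.getD j ∅) := by
      intro j hj
      have hjl : j < l.length := by omega
      rw [List.getD_eq_getElem?_getD, List.getElem?_eq_getElem hjl]
      rfl
    obtain ⟨a, ha1, ha2⟩ := exists_reps G (fun j => l.getD j ∅) i (n - 2 * i)
      (fun j hj => hx j _ (hget j hj))
      (fun j hj => hxy j _ _ (hget j hj.le) (hget (j + 1) hj))
    refine ⟨i, a, hi, hlen, ?_, ?_⟩
    · intro j x hj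
      have hjl : j < l.length := by
        by_contra hcon
        rw [List.getElem?_eq_none (by omega)] at hj
        exact absurd hj (by simp)
      refine ⟨hx j x hj, ?_⟩
      have h1 := ha1 j (by omega)
      have h2 := hget j (by omega)
      rw [h2] at hj
      have h3 : l.getD j ∅ = x := by simpa using hj
      rw [← h3]; exact h1
    · intro j hj
      exact ha2 j (by omega)
  choose! i a hi hlen hx hsub using key
  let rep : List (Finset (Finset (Fin n))) → List (Finset (Fin n)) :=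
    fun l => (List.range l.length).map (a l)
  have hrep : ∀ l (j : ℕ) (T : Finset (Fin n)), (rep l)[j]? = some T → j < l.length ∧ T = a l j := by
    intro l j T hT
    have h1 : j < (rep l).length := by
      by_contra hcon
      rw [List.getElem?_eq_none (by omega)] at hT
      exact absurd hT (by simp)
    have h2 : (rep l).length = l.length := by simp [rep]
    rw [List.getElem?_eq_getElem h1] at hT
    refine ⟨by omega, ?_⟩
    have h3 : (rep l)[j] = a l j := by simp [rep]
    rw [h3] at hT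
    simpa using hT.symm
  have hrep' : ∀ l (j : ℕ), j < l.length → (rep l)[j]? = some (a l j) := by
    intro l j hj
    have h1 : j < (rep l).length := by simpa [rep] using hj
    rw [List.getElem?_eq_getElem h1]
    simp [rep]
  have hcard : ∀ l ∈ C, ∀ j, j < l.length → (a l j).card = i l + j ∧
      l[j]? = some (orb G (a l j)) := by
    intro l hl j hj
    have h1 := hx l hl j l[j] (List.getElem?_eq_getElem hj)
    have h2 := QL_card h1.1 h1.2
    exact ⟨h2.1, by rw [List.getElem?_eq_getElem hj, h2.2]⟩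
  refine ⟨C.image rep, ?_, ?_⟩
  · intro L hL
    obtain ⟨l, hl, rfl⟩ := Finset.mem_image.1 hL
    have hl1 := hlen l hl
    have hi1 := hi l hl
    have hlr : (rep l).length = l.length := by simp [rep]
    have hne : rep l ≠ [] := by
      intro h
      rw [h] at hlr
      simp only [List.length_nil] at hlr
      omega
    refine ⟨hne, ?_, ?_⟩
    · intro j A B hA hB
      obtain ⟨h1, rfl⟩ := hrep l j A hA
      obtain ⟨h2, rfl⟩ := hrep l (j + 1) B hB
      refine ⟨hsub l hl j h2, ?_⟩
      rw [(hcard l hl j h1).1, (hcard l hl (j + 1) h2).1]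
      omega
    · intro A hA B hB
      rw [List.head?_eq_getElem?] at hA
      rw [List.getLast?_eq_getElem?] at hB
      obtain ⟨h1, rfl⟩ := hrep l 0 A hA
      obtain ⟨h2, rfl⟩ := hrep l _ B hB
      rw [(hcard l hl _ h1).1, (hcard l hl _ h2).1, hlr, hl1]
      omega
  · intro S
    have hSn : S.card ≤ n := by
      calc S.card ≤ (Finset.univ : Finset (Fin n)).card := Finset.card_le_univ S
        _ = n := by simp
    have hO : orb G S ∈ QL G S.card :=
      Finset.mem_image.2 ⟨S, Finset.mem_powersetCard.2 ⟨Finset.subset_univ _, rfl⟩, rfl⟩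
    obtain ⟨l, ⟨hl, hOl⟩, hluniq⟩ := hU S.card (Nat.zero_le _) (by omega) _ hO
    obtain ⟨k, hk, hkO⟩ := List.getElem_of_mem hOl
    have hk1 := hcard l hl k hk
    have hk2 : orb G (a l k) = orb G S := by
      have := hk1.2
      rw [List.getElem?_eq_getElem hk, hkO] at this
      simpa using this.symm
    have hSmem : S ∈ orb G (a l k) := by rw [hk2]; exact mem_orb_self G S
    obtain ⟨γ, hγ, hγS⟩ := (mem_orb G _ _).1 hSmem
    refine ⟨(rep l, k), ⟨Finset.mem_image_of_mem _ hl, a l k, hrep' l k hk, γ, hγ, hγS⟩, ?_⟩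
    rintro ⟨r', k'⟩ ⟨hr', T', hT', g, hg, hgT⟩
    obtain ⟨l', hl', rfl⟩ := Finset.mem_image.1 hr'
    obtain ⟨hk', rfl⟩ := hrep l' k' T' hT'
    have hS' : S ∈ orb G (a l' k') := (mem_orb G _ _).2 ⟨g, hg, hgT⟩
    have hO' := orb_eq G hS'
    have hmem : orb G S ∈ l' := by
      have := (hcard l' hl' k' hk').2
      rw [hO']
      exact List.mem_of_getElem? this
    have hll : l' = l := hluniq l' ⟨hl', hmem⟩
    subst hll
    have hc1 : (a l' k').card = S.card := by rw [← hgT]; exact (mv_card g _).symm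
    have hc2 : (a l' k).card = S.card := by rw [← hγS]; exact (mv_card γ _).symm
    have hc3 := (hcard l' hl k' hk').1
    have hc4 := hk1.1
    have : k' = k := by omega
    rw [this]

end Pool.Agent.Helper47.SR
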